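import Mathlib
import Pool.Agent.H50.Narasimhan

namespace Pool.Agent.Results.MP_48a29b_ag.Counter

open Pool.Agent.H50.Nara

theorem result :
    ∃ (S : Type) (_ : CommRing S) (_ : IsRegularLocalRing S) (n : ℕ) (Q : Ideal S) (r m : ℕ),
      ringKrullDim S = n ∧ Q.IsRadical ∧ Q ≠ ⊤ ∧ Q ≠ ⊥ ∧ 1 ≤ n ∧ 1 ≤ r ∧ 1 ≤ m ∧ r * n ≤ m ∧
        ¬ symb Q m ≤ IsLocalRing.maximalIdeal S ^ (r * n - r) * Q ^ r := by
  obtain ⟨k, hk⟩ := dim_nat
  refine ⟨R, inferInstance, inferInstance, k + 1, I, 2, 2 * (k + 1), hk, I_prime.isRadical,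
    I_prime.ne_top, I_ne_bot, by omega, by omega, by omega, le_rfl, ?_⟩
  rw [show 2 * (k + 1) - 2 = 2 * k by omega]
  exact main k

end Pool.Agent.Results.MP_48a29b_ag.Counter
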